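import Pool.Agent.H31.FW.TargetsG
import Pool.Agent.H29.DW.WY

/-!
# The bound of Weyl for friable conductors: row WY
-/

set_option autoImplicit false
set_option linter.unusedVariables false

open NumberField NumberField.InfinitePlace NumberField.Units
  NumberField.Units.dirichletUnitTheorem MeasureTheory Set Filter Complex
open scoped nonZeroDivisors ENNReal

namespace Pool.Agent.H33.FW

open Pool.Agent.H25.HK Pool.Agent.H23.LB Pool.Agent.H23.LC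
open Pool.Agent.H28.RC (Rep ft idl)
open Pool.Agent.H29.TC (GK fk_le dvs)
open Pool.Agent.H29.DW hiding pf_WY
open Pool.Agent.H31.FW

private lemma f_ne {K : Type} [Field K] [NumberField K] {l g q : Ideal (𝓞 K)}
    (h : GQ l g q) : l * (g * q) ≠ ⊥ := by
  rw [← Ideal.zero_eq_bot]
  exact mul_ne_zero h.l_ne (mul_ne_zero h.g_ne h.q_ne)

theorem pf_WY (hBP : Q_BP) (hBQ : Q_BQ) (hAE : V_AE) (hGH : V_GH) (hFK : U_FK)
    (hHR : Pool.Agent.H29.TC.T_HR) (hSY : T_SY) (hDS : T_DS) (hDC : U_DC) (hGE : U_GE) :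
    Q_WY := by
  intro n hn0 ε hε
  set e : ℝ := min ε 1 / 2 with he
  have he0 : 0 < e := by
    rw [he]
    have := lt_min hε one_pos
    positivity
  have he1 : e ≤ 1 := by
    rw [he]
    have := min_le_right ε 1
    linarith
  have heε : e ≤ ε := by
    rw [he]
    have := min_le_left ε 1
    have := min_le_right ε 1
    have := lt_min hε one_pos
    linarith
  set κ : ℝ := e / 32 with hκ
  have hκ0 : 0 < κ := by positivity
  have hκ1 : κ ≤ 1 := by rw [hκ]; linarith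
  obtain ⟨C₁, hC₁, hP⟩ := hBP n hn0 e κ he0 he1 hκ0 le_rfl
  obtain ⟨C₂, hC₂, hQ⟩ := hBQ n hn0 e κ he0 he1 hκ0 le_rfl
  obtain ⟨C₀, hC₀, hA⟩ := hAE n
  obtain ⟨C₃, hC₃, hG⟩ := hGH n
  obtain ⟨C₄, hR⟩ := hHR n e he0
  refine ⟨(Real.sqrt C₁ + Real.sqrt C₂) * (C₀ * κ⁻¹ * max 1 C₃) * Real.sqrt (max 0 C₄), ?_⟩
  intro K _ _ hn l g q hM χ hχ
  have hf0 : (l * (g * q)) ≠ ⊥ := f_ne hM
  obtain ⟨D⟩ := hSY K _ hf0
  obtain ⟨L, ⟨h1, h2, ⟨E, hE1, hE2, hE3⟩, h4⟩, hent⟩ := hFK K _ hf0 D χ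
  refine ⟨L, ⟨h1, h2, hent⟩, fun t => ?_⟩
  unfold Cond WQ
  have hd1 := one_le_discr (K := K)
  have hNf1 := one_le_Nf hf0
  have hCi1 := one_le_Ci χ.k χ.ν t
  have hlg : l * g ≠ ⊥ := by
    rw [← Ideal.zero_eq_bot]
    exact mul_ne_zero hM.l_ne hM.g_ne
  have hNlg := one_le_Nf hlg
  have hNk := one_le_Nf hM.q_ne
  set Q : ℝ := |(discr K : ℝ)| * Nf K (l * (g * q)) * Ci χ.k χ.ν t with hQd
  have hQ1 : 1 ≤ Q := by
    rw [hQd]
    exact one_le_mul_of_one_le_of_one_le (one_le_mul_of_one_le_of_one_le hd1 hNf1) hCi1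
  have hQ0 : 0 < Q := by linarith
  set X : ℝ := Real.sqrt Q with hX
  have hX0 : 0 < X := Real.sqrt_pos.2 hQ0
  -- the factor of the functional equation
  have hgf : ∀ s : ℂ, 1 / 2 ≤ s.re → s.re ≤ 3 / 2 → ‖gf χ s‖ ≤
      max 1 C₃ * X ^ (2 * (s.re - 1 / 2)) * (1 + |s.im + t|) ^ n := by
    intro s hs hs'
    have h5 := hG K hn χ.k χ.ν t χ.real_k s hs hs'
    have hdN : 0 < |(discr K : ℝ)| * Nf K (l * (g * q)) := by positivity
    unfold gf
    rw [norm_mul, norm_mul, norm_pow, norm_neg, Complex.norm_I, one_pow, one_mul,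
      Complex.norm_cpow_eq_rpow_re_of_pos hdN]
    have h6 : (s - 1 / 2 : ℂ).re = s.re - 1 / 2 := by
      rw [Complex.sub_re]
      norm_num
    rw [h6]
    have h7 : X ^ (2 * (s.re - 1 / 2)) = (|(discr K : ℝ)| * Nf K (l * (g * q))) ^ (s.re - 1 / 2) *
        Ci χ.k χ.ν t ^ (s.re - 1 / 2) := by
      rw [hX, Real.sqrt_eq_rpow, ← Real.rpow_mul hQ0.le, hQd,
        ← Real.mul_rpow hdN.le (by linarith)]
      congr 1
      ring
    rw [h7]
    have h8 : C₃ * Ci χ.k χ.ν t ^ (s.re - 1 / 2) * (1 + |s.im + t|) ^ n ≤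
        max 1 C₃ * Ci χ.k χ.ν t ^ (s.re - 1 / 2) * (1 + |s.im + t|) ^ n := by
      gcongr
      exact le_max_right _ _
    calc (|(discr K : ℝ)| * Nf K (l * (g * q))) ^ (s.re - 1 / 2) *
          ‖gG K χ.k (-χ.ν) s * (gG K χ.k χ.ν (1 - s))⁻¹‖
        ≤ (|(discr K : ℝ)| * Nf K (l * (g * q))) ^ (s.re - 1 / 2) *
          (max 1 C₃ * Ci χ.k χ.ν t ^ (s.re - 1 / 2) * (1 + |s.im + t|) ^ n) :=
          mul_le_mul_of_nonneg_left (h5.trans h8) (by positivity)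
      _ = _ := by ring
  obtain ⟨v, v', hv, hv', hL⟩ := hA κ hκ0 hκ1 (NZI K) L E (gf χ) (fun J => χ.ψ J.1)
    (fun J => cd D χ J.1) (fun J => (Ideal.absNorm J.1 : ℝ)) X t (max 1 C₃) hX0
    (le_max_left _ _)
    (fun J => one_le_Nf J.2)
    (fun σ hσ => by
      have h5 := (hDS K (σ : ℂ) (by simpa using hσ)).1
      refine h5.congr fun J => ?_
      have h6 : (0 : ℝ) < (Ideal.absNorm J.1 : ℝ) := by
        have := one_le_Nf J.2
        unfold Nf at this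
        linarith
      have h7 := Complex.norm_cpow_eq_rpow_re_of_pos h6 (-(σ : ℂ))
      rw [Complex.ofReal_natCast] at h7
      rw [h7]
      simp only [Complex.neg_re, Complex.ofReal_re])
    ⟨max 1 (Real.sqrt (Nf K (l * (g * q)))), fun J => ⟨(norm_psi_le χ J.1).trans (le_max_left _ _),
      ((hDC K _ hf0 D χ).1 J.1).trans (le_max_right _ _)⟩⟩
    hE1 hE2 (hE3 3)
    (fun s hs => by
      rw [h1 s hs]
      unfold HG.series
      refine tsum_congr fun J => ?_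
      rw [Complex.ofReal_natCast])
    (fun s hs => by
      rw [h4 s hs]
      unfold serd
      exact congrArg (fun z => gf χ s * z) (tsum_congr fun J => by
        rw [Complex.ofReal_natCast]))
    (fun s hs => gf_diff hGE hf0 χ s hs) hgf
  rw [hL]
  have hB0 : 0 ≤ C₀ * κ⁻¹ * max 1 C₃ := by
    have := le_max_left 1 C₃
    positivity
  have hp1 := hP K hn l g q hM χ hχ t (C₀ * κ⁻¹ * max 1 C₃) v hB0 hv
  have hq1 := hQ K hn l g q hM χ hχ D t (C₀ * κ⁻¹ * max 1 C₃) v' hB0 hv'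
  rw [← hQd] at hp1 hq1
  set B : ℝ := C₀ * κ⁻¹ * max 1 C₃ with hB
  have hS : ∑' J : NZI K, χ.ψ J.1 * v (Ideal.absNorm J.1 : ℝ) *
      (((Ideal.absNorm J.1 : ℝ) : ℂ)) ^ (-(t * I : ℂ)) =
      ∑' J : NZI K, χ.ψ J.1 * v (Ideal.absNorm J.1) *
      (Ideal.absNorm J.1 : ℂ) ^ (-(t * I : ℂ)) :=
    tsum_congr fun J => by rw [Complex.ofReal_natCast]
  have hS' : ∑' J : NZI K, cd D χ J.1 * v' (Ideal.absNorm J.1 : ℝ) *
      (((Ideal.absNorm J.1 : ℝ) : ℂ)) ^ (t * I : ℂ) =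
      ∑' J : NZI K, cd D χ J.1 * v' (Ideal.absNorm J.1) *
      (Ideal.absNorm J.1 : ℂ) ^ (t * I : ℂ) :=
    tsum_congr fun J => by rw [Complex.ofReal_natCast]
  rw [hS, hS']
  refine (norm_add_le _ _).trans ?_
  -- the common bound
  set W : ℝ := Q ^ e * ((classNumber K * regulator K) * (Nf K (l * g) + Real.sqrt (Nf K q)) *
    Ci χ.k χ.ν t ^ (1 / 3 : ℝ)) with hW
  have hreg : 0 < regulator K := regulator_pos K
  have hW0 : 0 ≤ W := by
    rw [hW]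
    positivity
  have hroot : ∀ (S : ℂ) (C : ℝ), 0 ≤ C → ‖S‖ ^ 2 ≤ C * B ^ 2 * Q ^ e *
      ((classNumber K * regulator K) * (Nf K (l * g) + Real.sqrt (Nf K q)) *
        Ci χ.k χ.ν t ^ (1 / 3 : ℝ)) → ‖S‖ ≤ Real.sqrt C * B * Real.sqrt W := by
    intro S C hC h
    have h5 : ‖S‖ ^ 2 ≤ (Real.sqrt C * B * Real.sqrt W) ^ 2 := by
      rw [mul_pow, mul_pow, Real.sq_sqrt hC, Real.sq_sqrt hW0, hW]
      refine h.trans (le_of_eq ?_)
      ring
    exact le_of_sq_le_sq h5 (by positivity)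
  have h5 := hroot _ C₁ hC₁ hp1
  have h6 := hroot _ C₂ hC₂ hq1
  refine (add_le_add h5 h6).trans ?_
  have hWle : Real.sqrt W ≤ Real.sqrt (max 0 C₄) * (Q ^ ε * (|(discr K : ℝ)| ^ (1 / 4 : ℝ) *
      (Nf K (l * g) + Real.sqrt (Nf K q)) ^ (1 / 2 : ℝ) * Ci χ.k χ.ν t ^ (1 / 6 : ℝ))) := by
    have h7 : (classNumber K : ℝ) * regulator K ≤
        max 0 C₄ * (|(discr K : ℝ)| ^ (1 / 2 : ℝ) * Q ^ e) := by
      refine (hR K hn).trans ?_
      rw [Real.rpow_add (by linarith)]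
      have h8 : |(discr K : ℝ)| ^ e ≤ Q ^ e := by
        refine Real.rpow_le_rpow (by positivity) ?_ he0.le
        rw [hQd]
        calc |(discr K : ℝ)| = |(discr K : ℝ)| * 1 * 1 := by ring
          _ ≤ |(discr K : ℝ)| * Nf K (l * (g * q)) * Ci χ.k χ.ν t := by gcongr
      have h9 : 0 ≤ |(discr K : ℝ)| ^ (1 / 2 : ℝ) := by positivity
      have h10 : 0 ≤ |(discr K : ℝ)| ^ e := by positivity
      calc C₄ * (|(discr K : ℝ)| ^ (1 / 2 : ℝ) * |(discr K : ℝ)| ^ e)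
          ≤ max 0 C₄ * (|(discr K : ℝ)| ^ (1 / 2 : ℝ) * |(discr K : ℝ)| ^ e) := by
            gcongr
            exact le_max_right _ _
        _ ≤ _ := by gcongr
    have h8 : W ≤ max 0 C₄ * (Q ^ (2 * e) * (|(discr K : ℝ)| ^ (1 / 2 : ℝ) *
        (Nf K (l * g) + Real.sqrt (Nf K q)) * Ci χ.k χ.ν t ^ (1 / 3 : ℝ))) := by
      rw [hW]
      calc Q ^ e * ((classNumber K * regulator K) * (Nf K (l * g) + Real.sqrt (Nf K q)) *
            Ci χ.k χ.ν t ^ (1 / 3 : ℝ))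
          ≤ Q ^ e * ((max 0 C₄ * (|(discr K : ℝ)| ^ (1 / 2 : ℝ) * Q ^ e)) *
            (Nf K (l * g) + Real.sqrt (Nf K q)) * Ci χ.k χ.ν t ^ (1 / 3 : ℝ)) := by gcongr
        _ = _ := by
            rw [show (2 * e : ℝ) = e + e by ring, Real.rpow_add hQ0]
            ring
    have h9 : W ≤ max 0 C₄ * (Q ^ ε * (|(discr K : ℝ)| ^ (1 / 4 : ℝ) *
      (Nf K (l * g) + Real.sqrt (Nf K q)) ^ (1 / 2 : ℝ) * Ci χ.k χ.ν t ^ (1 / 6 : ℝ))) ^ 2 := by
      refine h8.trans ?_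
      refine mul_le_mul_of_nonneg_left ?_ (le_max_left _ _)
      rw [mul_pow, mul_pow, mul_pow]
      have e1 : (|(discr K : ℝ)| ^ (1 / 4 : ℝ)) ^ 2 = |(discr K : ℝ)| ^ (1 / 2 : ℝ) := by
        rw [← Real.rpow_natCast, ← Real.rpow_mul (by positivity)]
        norm_num
      have e2 : ((Nf K (l * g) + Real.sqrt (Nf K q)) ^ (1 / 2 : ℝ)) ^ 2 = Nf K (l * g) + Real.sqrt (Nf K q) := by
        rw [← Real.rpow_natCast, ← Real.rpow_mul (by positivity)]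
        norm_num
      have e3 : (Ci χ.k χ.ν t ^ (1 / 6 : ℝ)) ^ 2 = Ci χ.k χ.ν t ^ (1 / 3 : ℝ) := by
        rw [← Real.rpow_natCast, ← Real.rpow_mul (by positivity)]
        norm_num
      have e4 : Q ^ (2 * e) ≤ (Q ^ ε) ^ 2 := by
        rw [← Real.rpow_natCast, ← Real.rpow_mul hQ0.le]
        refine Real.rpow_le_rpow_of_exponent_le hQ1 ?_
        push_cast
        linarith
      rw [e1, e2, e3]
      gcongr
    calc Real.sqrt W ≤ Real.sqrt (max 0 C₄ * (Q ^ ε * (|(discr K : ℝ)| ^ (1 / 4 : ℝ) *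
      (Nf K (l * g) + Real.sqrt (Nf K q)) ^ (1 / 2 : ℝ) * Ci χ.k χ.ν t ^ (1 / 6 : ℝ))) ^ 2) :=
          Real.sqrt_le_sqrt h9
      _ = _ := by
          rw [Real.sqrt_mul (le_max_left _ _), Real.sqrt_sq (by positivity)]
  have h7 : Real.sqrt C₁ * B * Real.sqrt W + Real.sqrt C₂ * B * Real.sqrt W =
      (Real.sqrt C₁ + Real.sqrt C₂) * B * Real.sqrt W := by ring
  rw [h7]
  refine (mul_le_mul_of_nonneg_left hWle (by positivity)).trans (le_of_eq ?_)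
  unfold Nf at hQd ⊢
  rw [hQd]
  ring

end Pool.Agent.H33.FW
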